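import Pool.Agent.V2450.Deligne.Nil

/-!
# Automorphy of representations which become abelian over a nilpotent extension

Let `K` be a CM field (or any number field) with absolute Galois group `G`, `k` an algebraic closure of
`ℚ_p`, and `R` an irreducible potentially semi-stable representation of `G` on a finite dimensional
`k`-space `V`. Let `L` be a finite Galois extension of `K` with absolute Galois group `N`, such that
`Gal(L/K) = G ⧸ N` is nilpotent and the restriction of `R` to `N` has an abelian image (`Ab R N`).

Let `P H W` be the following statement on a subgroup `H ⊇ N` of `G`, with the field `K_H`, and a subspace `W`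
of `V` which is stable under `H`: there is an algebraic isobaric automorphic representation `Π` of
`GL(m, 𝔸_{K_H})`, `m = dim W`, such that at almost all places the Frobenius on the representation `W` of
`H` has the characteristic polynomial of the parameter of `Π_v` (normalized as in the problem).
`IsAut R N P` lists the facts which are known:

* (`line`) `P H W` if `dim W = 1`: the characters of `H` in the restriction of `R` are potentially
  semi-stable, hence they come from algebraic Hecke characters of `K_H`;
* (`ind`) if `H' ⊇ N` is normal in `H`, and the representation `W` of `H` is induced from the
  representation `W'` of `H'`, then `P H' W'` implies `P H W`: automorphic induction for the Galois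
  extension `K_{H'}/K_H`, whose Galois group is nilpotent (Arthur and Clozel);
* (`sum`) isobaric sums (Langlands).

`W` is induced from `W'` if it is the sum of the translates of `W'` and `dim W = (H : H') dim W'`.

The conclusion is `P G V`: there is an algebraic isobaric automorphic representation `Π` of `GL(n, 𝔸_K)`
with `ρ_Π ≅ R`. The representation `Π` is cuspidal: by Brauer's theorem the `L`-function of `R ⊗ R^∨` has
a simple pole at `s = 1` since `R` is irreducible and potentially abelian, and for an isobaric sum of
several cuspidal representations the pole of `L(s, Π × Π^∨)` has a higher order. If
`R^∨ ≅ R^c ⊗ Ψ`, then `Π` is essentially conjugate self-dual by strong multiplicity one.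
-/

set_option autoImplicit false

namespace Pool.Agent.Results.MP_adf543_nt.PotentiallyAbelianNilpotent

universe u v

open Pool.Agent.V2450.Deligne

/-- Let `R` be an irreducible representation of the group `G` on the finite dimensional space `V` over an
algebraically closed field `k`, and let `N` be a normal subgroup whose image is abelian, such that
`G ⧸ N` is finite and nilpotent. Let `P` be a predicate as above. Then `P G V`. Moreover `R` is induced
from a character of a subgroup `H` which contains `N`. -/
theorem result (k : Type u) [Field k] [IsAlgClosed k] (G : Type v) [Group G] (V : Type u)
    [AddCommGroup V] [Module k V] [FiniteDimensional k V] [Nontrivial V]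
    (R : Representation k G V) (hirr : ∀ W : Submodule k V, Stable R W → W = ⊥ ∨ W = ⊤)
    (N : Subgroup G) [N.Normal] [Finite (G ⧸ N)] [Group.IsNilpotent (G ⧸ N)] (hab : Ab R N) :
    IsInduced N R ∧
      ∀ P : Subgroup G → Submodule k V → Prop, IsAut R N P → P ⊤ ⊤ :=
  ⟨isInduced_of_irr R N (super_of_nilp _ _ rfl) hab hirr, fun _ hP =>
    aut_of_irr R N hab hP ⊤ (fun _ _ _ => Submodule.mem_top) bot_ne_top.symm
      fun U _ hU => hirr U hU⟩

end Pool.Agent.Results.MP_adf543_nt.PotentiallyAbelianNilpotent
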