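import Pool.Agent.V1183.SV.Main
import Pool.Agent.V1183.SV.Char
import Pool.Agent.V1183.SV.Twist

/-!
# Representations which look automorphic at a sparse set of primes

Let `f` be any function. There is a sequence `T` of prime numbers, growing faster than prescribed by `f`,
and splitting completely in an infinite unramified tower `L / k`, such that the following holds for every
number field `K` (for instance a CM field), every prime number `p` and all continuous representations
`R, R₀ : G_K → GL_m(ℚ_p)` which are unramified outside finite sets of primes.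

Suppose that for almost all `i` and all Frobenius elements `σ` of `G_K` above `T i` some powers `R(σ) ^ a`
and `R₀(σ) ^ a` have the same characteristic polynomials (`a ≥ 1` may depend on `σ`). Then `R` and `R₀` have
the same characteristic polynomials over a finite extension of `K`. If `R₀` is absolutely irreducible over all
finite extensions of `K`, then `R` is isomorphic to the twist of `R₀` by a character of finite order of `G_K`.

So if `R₀` is the representation attached to an algebraic essentially conjugate self-dual cuspidal `π`, then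
`R` is the one attached to a twist of `π`.
-/

set_option autoImplicit false

namespace Pool.Agent.Results.MP_adf543_nt.SparsePrimes

open NumberField IntermediateField Module Polynomial

attribute [local instance 10] DivisionRing.toRatAlgebra

/-- the absolute Galois group of `ℚ` -/
abbrev GQ : Type := Gal(AlgebraicClosure ℚ/ℚ)

/-- the ring of all algebraic integers -/
abbrev ZBar : Type := 𝓞 (AlgebraicClosure ℚ)

/-- `τ` lies in the inertia group at the maximal ideal `P` of the ring of all algebraic integers -/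
def Inertia (P : Ideal ZBar) (τ : GQ) : Prop := ∀ x : ZBar, τ • x - x ∈ P

/-- `σ` is a (geometric) Frobenius element at the maximal ideal `P` above the prime number `q`: it induces
the inverse of `x ↦ x ^ q` on the residue field -/
def Frobenius (q : ℕ) (P : Ideal ZBar) (σ : GQ) : Prop := ∀ x : ZBar, x - (σ • x) ^ q ∈ P

/-- `L` is a totally real Galois extension of infinite degree of the real quadratic field `k`, unramified at
all finite places, and a union of finite extensions of `ℚ` whose degrees are powers of two -/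
structure UnramifiedTower (k L : IntermediateField ℚ (AlgebraicClosure ℚ)) : Prop where
  quadratic : finrank ℚ k = 2 ∧ ∃ s ∈ k,
    s ^ 2 = ((17 * 41 * 73 * 89 * 97 * 113 * 137 * 193 * 233 * 241 : ℕ) : AlgebraicClosure ℚ)
  le : k ≤ L
  infinite : ¬ FiniteDimensional ℚ L
  galois : ∀ σ : GQ, (∀ x ∈ k, σ x = x) → ∀ y ∈ L, σ y ∈ L
  unramified : ∀ q : ℕ, q.Prime → ∀ P : Ideal ZBar, P.IsMaximal → (q : ZBar) ∈ P → ∀ τ : GQ,
    (∀ x ∈ k, τ x = x) → Inertia P τ → ∀ y ∈ L, τ y = y
  real : ∀ (φ : L →+* ℂ) (y : L), (φ y).im = 0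
  two : ∀ y ∈ L, ∃ m : ℕ, finrank ℚ ℚ⟮y⟯ = 2 ^ m

/-- the prime number `q` is unramified and splits completely in `L`: all inertia elements and all Frobenius
elements above `q` fix `L` -/
def SplitsCompletely (q : ℕ) (L : IntermediateField ℚ (AlgebraicClosure ℚ)) : Prop :=
  ∀ P : Ideal ZBar, P.IsMaximal → (q : ZBar) ∈ P → ∀ σ : GQ, Inertia P σ ∨ Frobenius q P σ →
    ∀ y ∈ L, σ y = y

/-- the property `C` holds for the Frobenius elements at the places of `K` of degree one above almost all
`T i` -/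
def AtAlmostAll (K : IntermediateField ℚ (AlgebraicClosure ℚ)) (T : ℕ → ℕ)
    (C : K.fixingSubgroup → Prop) : Prop :=
  ∃ i₀ : ℕ, ∀ i ≥ i₀, ∀ P : Ideal ZBar, P.IsMaximal → (T i : ZBar) ∈ P →
    ∀ σ : K.fixingSubgroup, Frobenius (T i) P σ → C σ

/-- the property `C` holds for all elements of the absolute Galois group of `K'` -/
def Over (K K' : IntermediateField ℚ (AlgebraicClosure ℚ)) (C : K.fixingSubgroup → Prop) : Prop :=
  ∀ σ : K.fixingSubgroup, (∀ x ∈ K', (σ : GQ) x = x) → C σ

section rep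

variable {K : IntermediateField ℚ (AlgebraicClosure ℚ)} {p : ℕ} [Fact p.Prime]

/-- `ρ` is continuous and unramified outside a finite set of primes -/
def AlmostUnramified {n : ℕ} (ρ : K.fixingSubgroup →* GL (Fin n) ℚ_[p]) : Prop :=
  Continuous ρ ∧
  ∃ S : Finset ℕ, ∀ q : ℕ, q.Prime → q ∉ S → ∀ P : Ideal ZBar, P.IsMaximal → (q : ZBar) ∈ P →
    ∀ τ : K.fixingSubgroup, Inertia P τ → ρ τ = 1

/-- the matrix of an element -/
noncomputable def matrix {n : ℕ} (ρ : K.fixingSubgroup →* GL (Fin n) ℚ_[p]) (σ : K.fixingSubgroup) :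
    Matrix (Fin n) (Fin n) ℚ_[p] := ρ σ

/-- `ρ` is absolutely irreducible on the absolute Galois groups of all finite extensions `K'` of `K`: the
matrices of the elements of `G_K'` span the space of all matrices (theorem of Burnside) -/
def StronglyIrreducible {n : ℕ} (ρ : K.fixingSubgroup →* GL (Fin n) ℚ_[p]) : Prop :=
  ∀ K' : IntermediateField ℚ (AlgebraicClosure ℚ), K ≤ K' → FiniteDimensional ℚ K' →
    Submodule.span ℚ_[p] {X | ∃ σ : K.fixingSubgroup, (∀ x ∈ K', (σ : GQ) x = x) ∧
      X = matrix ρ σ} = ⊤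

/-- `ρ'` is isomorphic to the twist of `ρ` by a character `ε` of finite order of `G_K`, i.e. trivial on the
absolute Galois group of a finite extension `K'` of `K` -/
def IsTwist {n : ℕ} (ρ ρ' : K.fixingSubgroup →* GL (Fin n) ℚ_[p]) : Prop :=
  ∃ (Q : GL (Fin n) ℚ_[p]) (ε : K.fixingSubgroup →* ℚ_[p]ˣ)
    (K' : IntermediateField ℚ (AlgebraicClosure ℚ)), K ≤ K' ∧ FiniteDimensional ℚ K' ∧
    (Over K K' fun σ => ε σ = 1) ∧
    ∀ σ, matrix ρ' σ = (ε σ : ℚ_[p]) • ((Q : Matrix (Fin n) (Fin n) ℚ_[p]) * matrix ρ σ *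
      ((Q⁻¹ : GL (Fin n) ℚ_[p]) : Matrix (Fin n) (Fin n) ℚ_[p]))

end rep

theorem exists_field (K : IntermediateField ℚ (AlgebraicClosure ℚ)) [FiniteDimensional ℚ K]
    (U : Subgroup GQ) (hU : IsOpen (U : Set GQ)) :
    ∃ K' : IntermediateField ℚ (AlgebraicClosure ℚ), K ≤ K' ∧ FiniteDimensional ℚ K' ∧
      ∀ σ : GQ, (∀ x ∈ K', σ x = x) → σ ∈ U := by
  obtain ⟨E, hE, hEU⟩ := (krullTopology_mem_nhds_one_iff _ _ _).1 (hU.mem_nhds U.one_mem)
  refine ⟨K ⊔ E, le_sup_left, inferInstance, fun σ hσ => hEU ?_⟩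
  rw [SetLike.mem_coe, IntermediateField.mem_fixingSubgroup_iff]
  exact fun x hx => hσ x ((le_sup_right : E ≤ K ⊔ E) hx)

/-- equal traces on the absolute Galois group of a finite extension -/
theorem twist {K : IntermediateField ℚ (AlgebraicClosure ℚ)} [FiniteDimensional ℚ K] {p : ℕ}
    [Fact p.Prime] {n : ℕ} (hn : 0 < n) (ρ ρ' : K.fixingSubgroup →* GL (Fin n) ℚ_[p])
    (hirr : StronglyIrreducible ρ) (K' : IntermediateField ℚ (AlgebraicClosure ℚ))
    (hK' : FiniteDimensional ℚ K')
    (h : Over K K' fun σ => (matrix ρ σ).trace = (matrix ρ' σ).trace) : IsTwist ρ ρ' := by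
  obtain ⟨E, hE, hEn, hEK⟩ := (krullTopology_mem_nhds_one_iff_of_normal ℚ (AlgebraicClosure ℚ) _).1
    (K'.fixingSubgroup_isOpen.mem_nhds K'.fixingSubgroup.one_mem)
  have hnorm : E.fixingSubgroup.Normal := by
    rw [← IntermediateField.restrictNormalHom_ker]
    infer_instance
  set D : Subgroup K.fixingSubgroup := E.fixingSubgroup.subgroupOf K.fixingSubgroup with hD
  have hDn : D.Normal := by
    rw [hD]
    infer_instance
  have hmem : ∀ σ : K.fixingSubgroup, (∀ x ∈ K ⊔ E, (σ : GQ) x = x) ↔ σ ∈ D := by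
    intro σ
    rw [hD, Subgroup.mem_subgroupOf]
    have e1 : (∀ x ∈ K ⊔ E, (σ : GQ) x = x) ↔ (σ : GQ) ∈ (K ⊔ E).fixingSubgroup :=
      (IntermediateField.mem_fixingSubgroup_iff _ _).symm
    rw [e1, IntermediateField.fixingSubgroup_sup, Subgroup.mem_inf]
    exact and_iff_right σ.2
  have hspan : Pool.Agent.V1183.SV.Sp ρ D = ⊤ := by
    rw [← hirr (K ⊔ E) le_sup_left inferInstance]
    unfold Pool.Agent.V1183.SV.Sp
    congr 1
    ext X
    constructor
    · rintro ⟨σ, hσ, rfl⟩
      exact ⟨σ, (hmem σ).2 hσ, rfl⟩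
    · rintro ⟨σ, hσ, rfl⟩
      exact ⟨σ, (hmem σ).1 hσ, rfl⟩
  obtain ⟨Q, ε, h1, h2⟩ := Pool.Agent.V1183.SV.exists_char hn (ρ := ρ) (ρ' := ρ') (D := D) hspan (by
    intro d hd
    refine h d fun x hx => ?_
    have h3 : (d : GQ) ∈ K'.fixingSubgroup := hEK hd
    exact (IntermediateField.mem_fixingSubgroup_iff _ _).1 h3 x hx)
  exact ⟨Q, ε, K ⊔ E, le_sup_left, inferInstance, fun σ hσ => h1 σ ((hmem σ).1 hσ), h2⟩

/-- **Main result.** -/
theorem result (f : ℕ → ℕ) :
    ∃ (T : ℕ → ℕ) (k L : IntermediateField ℚ (AlgebraicClosure ℚ)),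
      (∀ i, (T i).Prime ∧ T i < T (i + 1) ∧ f (T i) < T (i + 1)) ∧
      UnramifiedTower k L ∧ (∀ i, SplitsCompletely (T i) L) ∧
      ∀ (K : IntermediateField ℚ (AlgebraicClosure ℚ)), FiniteDimensional ℚ K →
        ∀ (p : ℕ) [Fact p.Prime] (m : ℕ) (R₀ R : K.fixingSubgroup →* GL (Fin m) ℚ_[p]),
            AlmostUnramified R₀ → AlmostUnramified R →
            AtAlmostAll K T (fun σ => ∃ a : ℕ, 0 < a ∧
              (matrix R₀ (σ ^ a)).charpoly = (matrix R (σ ^ a)).charpoly) →
            (∃ K' : IntermediateField ℚ (AlgebraicClosure ℚ), K ≤ K' ∧ FiniteDimensional ℚ K' ∧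
              Over K K' fun σ => (matrix R₀ σ).charpoly = (matrix R σ).charpoly) ∧
            (0 < m → StronglyIrreducible R₀ → IsTwist R₀ R) := by
  obtain ⟨T, k, L, hT1, hT2, htow, hrep⟩ := Pool.Agent.V1183.SV.main f
  refine ⟨T, k, L, fun i => ⟨hT1 i, ?_, ?_⟩, ⟨⟨htow.rank, htow.sqrt⟩, htow.le, htow.inf, htow.galois,
    htow.unr, htow.real, htow.two⟩, ?_, ?_⟩
  · have := hT2 i
    omega
  · have := hT2 i
    have := (hT1 i).pos
    omega
  · intro i P hP hTP σ hσ
    rcases hσ with hσ | hσ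
    · exact htow.unrT i P hP hTP σ hσ
    · exact htow.split i P hP hTP σ hσ
  · intro K hK p hp m R₀ R hR₀ hR hT
    have hfam : ∀ s : Fin 2, AlmostUnramified (if s = 0 then R₀ else R) := by
      intro s
      split_ifs
      · exact hR₀
      · exact hR
    obtain ⟨V, hV, hVK, h1⟩ := hrep K.fixingSubgroup K.fixingSubgroup_isOpen p 2 (fun _ => m)
      (fun s => if s = 0 then R₀ else R) (fun s => (hfam s).1) (fun s => by
        obtain ⟨S, hS⟩ := (hfam s).2
        exact ⟨S, fun q hq hqS P hP hqP τ hτ hτP => hS q hq hqS P hP hqP ⟨τ, hτ⟩ hτP⟩)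
    obtain ⟨K', hKK', hK', hK'V⟩ := exists_field K V hV
    have hpow : ∀ (ρ₁ : K.fixingSubgroup →* GL (Fin m) ℚ_[p]) (σ : K.fixingSubgroup) (k : ℕ),
        matrix ρ₁ (σ ^ k) = matrix ρ₁ σ ^ k := by
      intro ρ₁ σ k
      unfold matrix
      rw [map_pow, Units.val_pow_eq_pow_val]
    have htr : Over K K' fun σ => (matrix R₀ σ).trace = (matrix R σ).trace := by
      intro σ hσ
      have h2 := h1 (∑ b, MvPolynomial.X ⟨0, b, b⟩ - ∑ b, MvPolynomial.X ⟨1, b, b⟩) (by
        obtain ⟨i0, hi0⟩ := hT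
        refine ⟨i0, fun i hi P hP hTP τ hτ hτP => ?_⟩
        obtain ⟨a, ha, h3⟩ := hi0 i hi P hP hTP ⟨τ, hτ⟩ hτP
        refine ⟨a, ha.ne', fun l _ => ?_⟩
        unfold Pool.Agent.V1183.SV.ev
        simp only [map_sub, map_sum, MvPolynomial.eval_X]
        have h4 := Pool.Agent.V1183.SV.trace_pow_eq _ _ h3 l
        rw [← hpow, ← hpow, ← pow_mul] at h4
        rw [sub_eq_zero]
        exact h4) σ.1 (hK'V _ hσ) σ.2
      unfold Pool.Agent.V1183.SV.ev at h2
      simp only [map_sub, map_sum, MvPolynomial.eval_X] at h2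
      exact sub_eq_zero.1 h2
    refine ⟨⟨K', hKK', hK', fun σ hσ => ?_⟩, fun hm hirr => twist hm R₀ R hirr K' hK' htr⟩
    apply Pool.Agent.TH658.Eq.charpoly_eq_of_traces
    intro k
    rw [← hpow, ← hpow]
    refine htr (σ ^ k) fun x hx => ?_
    have : ∀ k : ℕ, ((σ ^ k : K.fixingSubgroup) : GQ) x = x := by
      intro k
      induction k with
      | zero => rfl
      | succ k ih =>
        rw [pow_succ]
        change ((σ ^ k : K.fixingSubgroup) : GQ) ((σ : GQ) x) = x
        rw [hσ x hx, ih]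
    exact this k

end Pool.Agent.Results.MP_adf543_nt.SparsePrimes
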